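import Mathlib
import Pool.Agent.TH779.Ord.Block

/-! Blocks of small weight, and the duality between weights and distributions
(the duality is that of `Pool.Agent.Helper274_OB.DualX`). -/

set_option autoImplicit false

namespace Pool.Agent.Helper274_RT

open Finset
open Pool.Agent.TH779.Ord (el el_mem el_lt el_surj)

/-- a block of consecutive elements of small weight -/
theorem block_weight (J : Finset ℕ) (m : ℕ) (hm : 1 ≤ m) (w : ℕ → ℕ → ℝ) (hw : ∀ u v, 0 ≤ w u v)
    (hF : (m : ℝ) ≤ J.card - ∑ x ∈ J, ∑ y ∈ J.filter (fun y => x ≠ y), w x y) :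
    ∃ H ⊆ J, H.card = m ∧ (∀ y ∈ J, (∃ h ∈ H, h ≤ y) → (∃ h ∈ H, y ≤ h) → y ∈ H) ∧
      ∑ u ∈ H, ∑ v ∈ H.erase u, w u v ≤ m := by
  classical
  set t := J.card with ht
  set c : ℕ → ℕ := fun e => el J e with hc
  have hclt : ∀ e e', e < e' → e' < t → c e < c e' := fun e e' he he' => el_lt J he he'
  have hcinj : ∀ e < t, ∀ e' < t, c e = c e' → e = e' := by
    intro e he e' he' h1
    rcases lt_trichotomy e e' with h2 | h2 | h2
    · have := hclt e e' h2 he'; omega
    · exact h2
    · have := hclt e' e h2 he; omega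
  set G : ℕ → ℝ := fun e => ∑ y ∈ J.filter (fun y => el J e ≠ y), w (el J e) y with hG
  have hG0 : ∀ e, 0 ≤ G e := fun e => sum_nonneg fun y _ => hw _ _
  have hW0 : 0 ≤ ∑ x ∈ J, ∑ y ∈ J.filter (fun y => x ≠ y), w x y :=
    sum_nonneg fun x _ => sum_nonneg fun y _ => hw _ _
  have htm : m ≤ t := by
    have : (m : ℝ) ≤ t := by linarith
    exact_mod_cast this
  set r := t / m with hr
  have hr1 : 1 ≤ r := by
    rw [hr]
    exact (Nat.one_le_div_iff (by omega)).2 htm
  have hr2 : r * m ≤ t := Nat.div_mul_le_self _ _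
  have hr3 : t < r * m + m := by
    rw [hr]
    exact Nat.lt_div_mul_add (a := t) (b := m) (by omega)
  obtain ⟨b, hb, hmin⟩ := exists_min_image (range r)
    (fun b => ∑ e ∈ range m, G (b * m + e)) ⟨0, mem_range.2 (by omega)⟩
  rw [mem_range] at hb
  have hbt : b * m + m ≤ t := by
    have : (b + 1) * m ≤ r * m := Nat.mul_le_mul_right m hb
    rw [add_mul, one_mul] at this
    omega
  have hsumG : (r : ℝ) * ∑ e ∈ range m, G (b * m + e) ≤
      ∑ x ∈ J, ∑ y ∈ J.filter (fun y => x ≠ y), w x y := by
    have h3 := card_nsmul_le_sum (range r) (fun b' => ∑ e ∈ range m, G (b' * m + e)) _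
      (fun b' hb' => hmin b' hb')
    rw [card_range, nsmul_eq_mul] at h3
    have h4 : ∀ r' : ℕ, ∑ b' ∈ range r', ∑ e ∈ range m, G (b' * m + e) = ∑ e ∈ range (r' * m), G e := by
      intro r'
      induction r' with
      | zero => simp
      | succ r' ih =>
        rw [sum_range_succ, ih, add_mul, one_mul, sum_range_add]
    rw [h4] at h3
    refine h3.trans ?_
    calc ∑ e ∈ range (r * m), G e ≤ ∑ e ∈ range t, G e :=
          sum_le_sum_of_subset_of_nonneg (range_subset_range.2 hr2) (fun e _ _ => hG0 e)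
      _ = ∑ x ∈ (range t).image (fun e => el J e), ∑ y ∈ J.filter (fun y => x ≠ y), w x y := by
          rw [sum_image]
          intro e he e' he' h1
          rw [mem_coe, mem_range] at he he'
          exact hcinj e he e' he' h1
      _ ≤ _ := by
          apply sum_le_sum_of_subset_of_nonneg
          · intro x hx
            obtain ⟨e, he, rfl⟩ := mem_image.1 hx
            rw [mem_range] at he
            exact el_mem J he
          · intro x _ _
            exact sum_nonneg fun y _ => hw _ _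
  have hblock : ∑ e ∈ range m, G (b * m + e) ≤ m := by
    have hr0 : (0 : ℝ) < r := by exact_mod_cast hr1
    have h3 : (t : ℝ) ≤ r * m + m := by exact_mod_cast hr3.le
    have h4 : (r : ℝ) * ∑ e ∈ range m, G (b * m + e) ≤ r * m := by linarith
    exact le_of_mul_le_mul_left h4 hr0
  set H : Finset ℕ := (range m).image (fun e => c (b * m + e)) with hH
  have hinjH : Set.InjOn (fun e => c (b * m + e)) (range m : Finset ℕ) := by
    intro e he e' he' h1
    rw [mem_coe, mem_range] at he he'
    have := hcinj _ (by omega) _ (by omega) h1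
    omega
  refine ⟨H, ?_, ?_, ?_, ?_⟩
  · intro u hu
    obtain ⟨e, he, rfl⟩ := mem_image.1 hu
    rw [mem_range] at he
    exact el_mem J (by omega)
  · rw [hH, card_image_of_injOn hinjH, card_range]
  · rintro y hyJ ⟨u, hu, huy⟩ ⟨v, hv, hyv⟩
    obtain ⟨i, hi, rfl⟩ := mem_image.1 hu
    obtain ⟨j, hj, rfl⟩ := mem_image.1 hv
    rw [mem_range] at hi hj
    obtain ⟨e, he, hex⟩ := el_surj J hyJ
    have hye : y = c e := hex.symm
    rw [hye] at huy hyv ⊢
    have h1 : b * m + i ≤ e := by
      by_contra hcon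
      push Not at hcon
      have := hclt e (b * m + i) hcon (by omega)
      have h2 : c (b * m + i) ≤ c e := huy
      omega
    have h2 : e ≤ b * m + j := by
      by_contra hcon
      push Not at hcon
      have := hclt (b * m + j) e hcon he
      have h2 : c e ≤ c (b * m + j) := hyv
      omega
    refine mem_image.2 ⟨e - b * m, mem_range.2 (by omega), ?_⟩
    show c (b * m + (e - b * m)) = c e
    rw [Nat.add_sub_cancel' (by omega)]
  · refine le_trans ?_ hblock
    rw [hH, sum_image hinjH]
    apply sum_le_sum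
    intro i hi
    rw [mem_range] at hi
    have h1 : ((range m).image (fun e => c (b * m + e))).erase (c (b * m + i)) ⊆
        J.filter (fun y => el J (b * m + i) ≠ y) := by
      intro v hv
      rw [mem_erase] at hv
      obtain ⟨hv1, hv2⟩ := hv
      obtain ⟨j, hj, rfl⟩ := mem_image.1 hv2
      rw [mem_range] at hj
      exact mem_filter.2 ⟨el_mem J (by omega), fun h2 => hv1 h2.symm⟩
    exact sum_le_sum_of_subset_of_nonneg h1 (fun v _ _ => hw _ _)

theorem sum_pairs (V : Finset ℕ) (F : ℕ → ℕ → ℝ) :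
    ∑ u ∈ V, ∑ v ∈ V.erase u, F u v = ∑ x ∈ V.offDiag, F x.1 x.2 := by
  classical
  have h1 : V.offDiag = (V ×ˢ V).filter (fun x => x.1 ≠ x.2) := by
    ext x
    simp only [mem_offDiag, mem_filter, mem_product]
    tauto
  rw [h1, sum_filter, sum_product]
  refine sum_congr rfl fun u _ => ?_
  rw [← sum_filter]
  refine sum_congr ?_ fun _ _ => rfl
  ext v
  simp only [mem_erase, mem_filter]
  constructor
  · rintro ⟨h1, h2⟩
    exact ⟨h2, fun e => h1 e.symm⟩
  · rintro ⟨h1, h2⟩
    exact ⟨fun e => h2 e.symm, h1⟩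

/-- duality: if for every weight on the pairs of `V` some member of `P` has at most the proportion `c` of the
total weight, then there is a probability distribution on `P` for which every pair has probability
at most `c` -/
theorem duality (V : Finset ℕ) (P : Finset (Finset ℕ)) (hP : ∀ H ∈ P, H ⊆ V) (c : ℝ)
    (hw : ∀ w : ℕ → ℕ → ℝ, (∀ u v, 0 ≤ w u v) → ∃ H ∈ P, ∑ u ∈ H, ∑ v ∈ H.erase u, w u v ≤
      c * ∑ u ∈ V, ∑ v ∈ V.erase u, w u v) :
    ∃ μ : Finset ℕ → ℝ, (∀ H, 0 ≤ μ H) ∧ (∀ H, μ H ≠ 0 → H ∈ P) ∧ ∑ H ∈ P, μ H = 1 ∧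
      ∀ u ∈ V, ∀ v ∈ V, u ≠ v → ∑ H ∈ P.filter (fun H => u ∈ H ∧ v ∈ H), μ H ≤ c := by
  classical
  set χ : P → V.offDiag → ℝ := fun H x => if x.1.1 ∈ H.1 ∧ x.1.2 ∈ H.1 then 1 else 0 with hχ
  let L : (P → ℝ) →ₗ[ℝ] (V.offDiag → ℝ) :=
    { toFun := fun μ x => ∑ H, μ H * χ H x
      map_add' := by
        intro μ ν
        funext x
        simp only [Pi.add_apply, add_mul, sum_add_distrib]
      map_smul' := by
        intro r μ
        funext x
        simp only [Pi.smul_apply, smul_eq_mul, RingHom.id_apply, mul_sum, mul_assoc] }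
  have hL : ∀ μ x, L μ x = ∑ H, μ H * χ H x := fun _ _ => rfl
  set A : Set (V.offDiag → ℝ) := L '' stdSimplex ℝ P with hA
  set B : Set (V.offDiag → ℝ) := {x | ∀ i, x i ≤ c} with hB
  have hAc : Convex ℝ A := (convex_stdSimplex ℝ P).linear_image L
  have hAk : IsCompact A := (isCompact_stdSimplex ℝ P).image L.continuous_of_finiteDimensional
  have hBc : Convex ℝ B := by
    intro x hx y hy s t hs ht hst i
    simp only [Pi.add_apply, Pi.smul_apply, smul_eq_mul]
    calc s * x i + t * y i ≤ s * c + t * c :=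
          add_le_add (mul_le_mul_of_nonneg_left (hx i) hs) (mul_le_mul_of_nonneg_left (hy i) ht)
      _ = c := by rw [← add_mul, hst, one_mul]
  have hBk : IsClosed B := by
    rw [hB, Set.ofPred_forall]
    exact isClosed_iInter fun i => isClosed_le (continuous_apply i) continuous_const
  have key : ¬ Disjoint A B := by
    intro hdis
    obtain ⟨f, s, t, hfA, hst, hfB⟩ := geometric_hahn_banach_compact_closed hAc hAk hBc hBk hdis
    have hf : ∀ x : V.offDiag → ℝ, f x = ∑ i, x i * f (fun j => if i = j then 1 else 0) := by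
      intro x
      have := LinearMap.pi_apply_eq_sum_univ (f : (V.offDiag → ℝ) →ₗ[ℝ] ℝ) x
      simpa [smul_eq_mul] using this
    have hcB : (fun _ => c : V.offDiag → ℝ) ∈ B := fun _ => le_rfl
    have hneg : ∀ i, f (fun j => if i = j then 1 else 0) ≤ 0 := by
      intro i
      by_contra hcon
      push Not at hcon
      set N : ℝ := (f (fun _ => c) - t) / f (fun j => if i = j then 1 else 0) with hN
      have hN0 : 0 ≤ N := div_nonneg (by have := hfB _ hcB; linarith) hcon.le
      have hb : ((fun _ => c) - N • (fun j => if i = j then (1 : ℝ) else 0) : V.offDiag → ℝ) ∈ B := by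
        intro j
        simp only [Pi.sub_apply, Pi.smul_apply, smul_eq_mul]
        have : 0 ≤ N * (if i = j then (1 : ℝ) else 0) := by
          split_ifs <;> simp [hN0]
        linarith
      have h1 := hfB _ hb
      rw [map_sub, map_smul, smul_eq_mul] at h1
      have h2 : N * f (fun j => if i = j then (1 : ℝ) else 0) = f (fun _ => c) - t := by
        rw [hN]
        field_simp
      rw [h2] at h1
      linarith
    set w : ℕ → ℕ → ℝ := fun u v => if h : (u, v) ∈ V.offDiag then
      -f (fun j => if (⟨(u, v), h⟩ : V.offDiag) = j then 1 else 0) else 0 with hwdef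
    have hw0 : ∀ u v, 0 ≤ w u v := by
      intro u v
      rw [hwdef]
      simp only
      split_ifs with h
      · have := hneg ⟨(u, v), h⟩
        linarith
      · exact le_rfl
    have hwe : ∀ i : V.offDiag, w i.1.1 i.1.2 = -f (fun j => if i = j then 1 else 0) := by
      intro i
      rw [hwdef]
      simp only
      rw [dif_pos i.2]
    obtain ⟨H, hH, hle⟩ := hw w hw0
    have htot : ∑ u ∈ V, ∑ v ∈ V.erase u, w u v = -∑ i : V.offDiag, f (fun j => if i = j then 1 else 0) := by
      rw [sum_pairs, ← sum_coe_sort V.offDiag (fun x => w x.1 x.2), ← sum_neg_distrib]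
      exact sum_congr rfl fun i _ => hwe i
    have hHsum : ∑ u ∈ H, ∑ v ∈ H.erase u, w u v = -f (χ ⟨H, hH⟩) := by
      rw [hf, sum_pairs, ← sum_neg_distrib]
      have h1 : H.offDiag = V.offDiag.filter (fun x => x.1 ∈ H ∧ x.2 ∈ H) := by
        ext x
        simp only [mem_offDiag, mem_filter]
        constructor
        · rintro ⟨h1, h2, h3⟩
          exact ⟨⟨hP H hH h1, hP H hH h2, h3⟩, h1, h2⟩
        · rintro ⟨⟨_, _, h3⟩, h1, h2⟩
          exact ⟨h1, h2, h3⟩
      rw [h1, sum_filter, ← sum_coe_sort V.offDiag (fun x => if x.1 ∈ H ∧ x.2 ∈ H then w x.1 x.2 else 0)]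
      refine sum_congr rfl fun i _ => ?_
      rw [hχ]
      simp only
      rw [hwe i]
      split_ifs
      · rw [one_mul]
      · rw [zero_mul, neg_zero]
    have h1 : f (χ ⟨H, hH⟩) < s := by
      apply hfA
      refine ⟨fun H' => if (⟨H, hH⟩ : P) = H' then 1 else 0, ?_, ?_⟩
      · refine ⟨fun H' => by dsimp only; split_ifs <;> norm_num, ?_⟩
        simp
      · funext x
        rw [hL]
        simp
    have h2 : t < f (fun _ => c) := hfB _ hcB
    have h3 : f (fun _ => c) = c * ∑ i : V.offDiag, f (fun j => if i = j then 1 else 0) := by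
      rw [hf, mul_sum]
    rw [htot, hHsum] at hle
    rw [h3] at h2
    linarith
  rw [Set.not_disjoint_iff] at key
  obtain ⟨x, ⟨μ₀, ⟨hμ0, hμ1⟩, rfl⟩, hxB⟩ := key
  refine ⟨fun H => if h : H ∈ P then μ₀ ⟨H, h⟩ else 0, ?_, ?_, ?_, ?_⟩
  · intro H
    simp only
    split_ifs with h
    · exact hμ0 _
    · exact le_rfl
  · intro H h
    by_contra hcon
    simp only [hcon, dite_false, ne_eq, not_true_eq_false] at h
  · rw [← sum_coe_sort P (fun H => if h : H ∈ P then μ₀ ⟨H, h⟩ else 0), ← hμ1]
    refine sum_congr rfl fun H _ => ?_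
    rw [dif_pos H.2]
  · intro u hu v hv huv
    have h1 := hxB ⟨(u, v), mem_offDiag.2 ⟨hu, hv, huv⟩⟩
    rw [hL] at h1
    refine le_trans (le_of_eq ?_) h1
    rw [sum_filter, ← sum_coe_sort P (fun H => if u ∈ H ∧ v ∈ H then
      (if h : H ∈ P then μ₀ ⟨H, h⟩ else 0) else 0)]
    refine sum_congr rfl fun H _ => ?_
    rw [hχ]
    simp only
    rw [dif_pos H.2]
    split_ifs
    · rw [mul_one]
    · rw [mul_zero]

end Pool.Agent.Helper274_RT
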