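import Mathlib
import Pool.Agent.Helper274_RT.Dual

/-! Subsets of small weight. -/

set_option autoImplicit false

namespace Pool.Agent.Helper274_RT

open Finset

/-- the total weight of the pairs -/
noncomputable def Wt (w : ℕ → ℕ → ℝ) (V : Finset ℕ) : ℝ := ∑ u ∈ V, ∑ v ∈ V.erase u, w u v

theorem Wt_nonneg (w : ℕ → ℕ → ℝ) (hw : ∀ u v, 0 ≤ w u v) (V : Finset ℕ) : 0 ≤ Wt w V :=
  sum_nonneg fun u _ => sum_nonneg fun v _ => hw u v

/-- the average over the removal of an element -/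
theorem Wt_erase_sum (w : ℕ → ℕ → ℝ) (V : Finset ℕ) (hV : 2 ≤ V.card) :
    ∑ u ∈ V, Wt w (V.erase u) = ((V.card : ℝ) - 2) * Wt w V := by
  classical
  have h1 : ∀ u ∈ V, Wt w (V.erase u) =
      ∑ x ∈ V.offDiag, if x.1 ≠ u ∧ x.2 ≠ u then w x.1 x.2 else 0 := by
    intro u _
    unfold Wt
    rw [sum_pairs, ← sum_filter]
    refine sum_congr ?_ fun _ _ => rfl
    ext x
    simp only [mem_offDiag, mem_erase, mem_filter]
    tauto
  rw [sum_congr rfl h1, sum_comm]
  unfold Wt
  rw [sum_pairs, mul_sum]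
  refine sum_congr rfl fun x hx => ?_
  obtain ⟨hx1, hx2, hx3⟩ := mem_offDiag.1 hx
  rw [← sum_filter, sum_const, nsmul_eq_mul]
  congr 1
  have h2 : V.filter (fun u => x.1 ≠ u ∧ x.2 ≠ u) = (V.erase x.1).erase x.2 := by
    ext u
    simp only [mem_filter, mem_erase]
    constructor
    · rintro ⟨g1, g2, g3⟩
      exact ⟨fun e => g3 e.symm, fun e => g2 e.symm, g1⟩
    · rintro ⟨g1, g2, g3⟩
      exact ⟨g3, fun e => g2 e.symm, fun e => g1 e.symm⟩
  rw [h2, card_erase_of_mem (mem_erase.2 ⟨fun e => hx3 e.symm, hx2⟩), card_erase_of_mem hx1]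
  have h3 : V.card - 1 - 1 = V.card - 2 := by omega
  rw [h3, Nat.cast_sub hV]
  norm_num

/-- a subset of given size and small weight -/
theorem exists_sub (w : ℕ → ℕ → ℝ) (hw : ∀ u v, 0 ≤ w u v) (K : ℕ) (hK : 1 ≤ K) (d : ℕ) :
    ∀ V : Finset ℕ, V.card = K + d → ∃ S ⊆ V, S.card = K ∧
      Wt w S * ((V.card : ℝ) * ((V.card : ℝ) - 1)) ≤ Wt w V * ((K : ℝ) * ((K : ℝ) - 1)) := by
  classical
  induction d with
  | zero =>
    intro V hV
    rw [add_zero] at hV
    refine ⟨V, Subset.refl _, hV, ?_⟩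
    rw [hV]
  | succ d ih =>
    intro V hV
    have hV2 : 2 ≤ V.card := by omega
    have hV2r : (2 : ℝ) ≤ V.card := by exact_mod_cast hV2
    have hne : V.Nonempty := by rw [← card_pos]; omega
    obtain ⟨u, hu, hle⟩ : ∃ u ∈ V, Wt w (V.erase u) ≤ ((V.card : ℝ) - 2) * Wt w V / V.card := by
      apply exists_le_of_sum_le hne
      rw [Wt_erase_sum w V hV2, sum_const, nsmul_eq_mul]
      apply le_of_eq
      field_simp
    have hc : (V.erase u).card = K + d := by
      rw [card_erase_of_mem hu]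
      omega
    obtain ⟨S, hS, hSK, hSw⟩ := ih (V.erase u) hc
    refine ⟨S, hS.trans (erase_subset _ _), hSK, ?_⟩
    have hcr : ((V.erase u).card : ℝ) = V.card - 1 := by
      rw [card_erase_of_mem hu, Nat.cast_sub (by omega)]
      norm_num
    rw [hcr] at hSw
    rw [le_div_iff₀ (by linarith)] at hle
    have hS0 := Wt_nonneg w hw S
    have hK0 : (0 : ℝ) ≤ (K : ℝ) * ((K : ℝ) - 1) := by
      have : (1 : ℝ) ≤ K := by exact_mod_cast hK
      nlinarith
    rcases Nat.lt_or_ge 2 V.card with h3 | h3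
    · have h3r : (0 : ℝ) < (V.card : ℝ) - 2 := by
        have : ((3 : ℕ) : ℝ) ≤ V.card := by exact_mod_cast h3
        push_cast at this
        linarith
      have h4 : Wt w S * (((V.card : ℝ) - 1) * ((V.card : ℝ) - 1 - 1)) * V.card ≤
          (((V.card : ℝ) - 2) * Wt w V) * ((K : ℝ) * ((K : ℝ) - 1)) := by
        calc Wt w S * (((V.card : ℝ) - 1) * ((V.card : ℝ) - 1 - 1)) * V.card
            ≤ (Wt w (V.erase u) * ((K : ℝ) * ((K : ℝ) - 1))) * V.card :=
              mul_le_mul_of_nonneg_right hSw (by linarith)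
          _ = (Wt w (V.erase u) * V.card) * ((K : ℝ) * ((K : ℝ) - 1)) := by ring
          _ ≤ _ := mul_le_mul_of_nonneg_right hle hK0
      have h5 : ((V.card : ℝ) - 2) * (Wt w S * ((V.card : ℝ) * ((V.card : ℝ) - 1))) ≤
          ((V.card : ℝ) - 2) * (Wt w V * ((K : ℝ) * ((K : ℝ) - 1))) := by
        calc _ = Wt w S * (((V.card : ℝ) - 1) * ((V.card : ℝ) - 1 - 1)) * V.card := by ring
          _ ≤ _ := h4
          _ = _ := by ring
      exact le_of_mul_le_mul_left h5 h3r
    · have hK1 : K = 1 := by omega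
      have hS1 : S.card = 1 := by omega
      obtain ⟨x, hx⟩ := card_eq_one.1 hS1
      have h0 : Wt w S = 0 := by
        unfold Wt
        rw [hx]
        simp
      rw [h0, zero_mul]
      exact mul_nonneg (Wt_nonneg w hw V) hK0

end Pool.Agent.Helper274_RT
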