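import Mathlib
import Pool.Agent.Helper274_RT.WinT
import Pool.Agent.Helper274_RT.Sub
import Pool.Agent.H362R2.RQ.Shapes

/-! Realised patterns of small weight in the record windows, and spread distributions. -/

set_option autoImplicit false

namespace Pool.Agent.Helper274_RT

open Finset Filter
open Pool.Agent.TH779.Ord (el el_mem el_lt el_surj)
open Pool.Agent.H362R2.RQ
open Pool.Agent.H378R2 (gam gam_pos gam_ge yy)
open Pool.Agent.H256R2.SC (ff)
open Pool.Agent.H312R2.RG.C3 (ff_tendsto)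

/-- `n + h`, `h ∈ H`, are consecutive primes, and all the primes between `n` and `n + c f(X)` are among
at most `K` of the numbers `n + v`, `v ∈ V` -/
def Near (q K : ℕ) (c X : ℝ) (V H : Finset ℕ) (n : ℕ) : Prop :=
  X < n ∧ (n : ℝ) ≤ 3 * X ∧ q ∣ n ∧ (∀ h ∈ H, (n + h).Prime) ∧
    (∀ y : ℕ, (∃ h ∈ H, h ≤ y) → (∃ h ∈ H, y ≤ h) → (n + y).Prime → y ∈ H) ∧
    ∃ S ⊆ V, S.card ≤ K ∧ ∀ y : ℕ, (y : ℝ) ≤ c * ff X → (n + y).Prime → y ∈ S

theorem near_finite (q K : ℕ) (c X : ℝ) (V H : Finset ℕ) : {n : ℕ | Near q K c X V H n}.Finite := by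
  apply (Set.finite_Iic ⌊3 * X⌋₊).subset
  intro n hn
  rw [Set.mem_Iic]
  exact Nat.le_floor hn.2.1

/-- the constant -/
noncomputable def DT : ℝ := 128 * gam / kap

theorem DT_ge : 128 ≤ DT := by
  unfold DT
  have h1 := gam_ge
  have h2 := kap_pos
  have h3 : kap ≤ 1 := by unfold kap; norm_num
  rw [le_div_iff₀ h2]
  nlinarith

/-- realised patterns of small weight in the record windows -/
theorem pat_T (m : ℕ) (hm : 1 ≤ m) : ∃ B : ℕ, m ≤ B ∧ (B : ℝ) ≤ 2 * DT * m ∧ ∃ c : ℝ, 0 < c ∧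
    ∀ q : ℕ, Squarefree q → ∀ᶠ X : ℝ in atTop, ∀ V : Finset ℕ, 2 ^ B ≤ V.card →
    (∀ v ∈ V, v.Prime ∧ Real.log X ≤ v ∧ (v : ℝ) ≤ c * ff X) →
    ∀ w : ℕ → ℕ → ℝ, (∀ u v, 0 ≤ w u v) →
    ∃ H ⊆ V, H.card = m ∧ X ^ (7 / 8 : ℝ) ≤ ({n : ℕ | Near q (2 ^ B) c X V H n}.ncard : ℝ) ∧
      Wt w H ≤ DT ^ 2 * m ^ 2 / V.card ^ 2 * Wt w V := by
  classical
  have hD := DT_ge
  have hD0 : 0 < DT := by linarith
  have hgam := gam_pos
  have hkap := kap_pos
  have hm1 : (1 : ℝ) ≤ m := by exact_mod_cast hm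
  obtain ⟨B, hBd⟩ : ∃ B : ℕ, B = ⌈DT * (m : ℝ)⌉₊ := ⟨_, rfl⟩
  have hB1 : DT * (m : ℝ) ≤ B := by rw [hBd]; exact Nat.le_ceil _
  have hB2 : (B : ℝ) ≤ 2 * DT * m := by
    have h1 : (B : ℝ) < DT * (m : ℝ) + 1 := by
      rw [hBd]; exact Nat.ceil_lt_add_one (by positivity)
    have h2 : 1 ≤ DT * (m : ℝ) := by nlinarith
    linarith
  have hmB : (m : ℝ) ≤ B := by nlinarith
  have hmB' : m ≤ B := by exact_mod_cast hmB
  have hB0 : 1 ≤ B := hm.trans hmB'
  have hBr : (0 : ℝ) < B := by linarith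
  obtain ⟨K, hK, c, hc, hmain⟩ := fewT B hB0
  refine ⟨B, hmB', hB2, c, hc, fun q hqsf => ?_⟩
  have hq0 : 0 < q := Nat.pos_of_ne_zero hqsf.ne_zero
  rw [← hK]
  have hK2 : 2 ≤ K := by
    rw [hK]
    calc 2 = 2 ^ 1 := (pow_one 2).symm
      _ ≤ 2 ^ B := Nat.pow_le_pow_right (by norm_num) hB0
  have hKr : (2 : ℝ) ≤ K := by exact_mod_cast hK2
  have hK0 : (0 : ℝ) < K := by linarith
  obtain ⟨X1, hX1⟩ := hmain q
  filter_upwards [eventually_ge_atTop X1, ev_bad ((2 : ℝ) ^ K) (by positivity),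
    eventually_ge_atTop (1 : ℝ), ff_tendsto.eventually_ge_atTop 1,
    Real.tendsto_log_atTop.eventually_ge_atTop 1] with X hXX1 hbadX hX1' hff1 hlX
  intro V hKV hVp w hw
  obtain ⟨S, hSV, hSK, hSw⟩ := exists_sub w hw K (by omega) (V.card - K) V (by omega)
  set t : Fin K → ℕ := fun i => el S i with ht
  have htmem : ∀ i, t i ∈ S := fun i => el_mem S (by rw [hSK]; exact i.2)
  have htinj : Function.Injective t := by
    intro i j hij
    rcases lt_trichotomy i j with h | h | h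
    · have : t i < t j := el_lt S h (by rw [hSK]; exact j.2)
      omega
    · exact h
    · have : t j < t i := el_lt S h (by rw [hSK]; exact i.2)
      omega
  have hSimg : univ.image t = S := by
    apply eq_of_subset_of_card_le
    · intro v hv
      obtain ⟨i, _, rfl⟩ := mem_image.1 hv
      exact htmem i
    · rw [card_image_of_injective _ htinj, card_univ, Fintype.card_fin, hSK]
  -- the rare patterns
  set P : Finset ℕ → ℝ := fun H => ({n : ℕ | Near q K c X V H n}.ncard : ℝ) with hP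
  set bad : Finset ℕ := (S.powerset.filter (fun H => P H < X ^ (7 / 8 : ℝ))).biUnion
    (fun H => (near_finite q K c X V H).toFinset) with hbad
  have hbadcard : (bad.card : ℝ) ≤ X ^ (9 / 10 : ℝ) := by
    have h1 : (bad.card : ℝ) ≤ ∑ H ∈ S.powerset.filter (fun H => P H < X ^ (7 / 8 : ℝ)), P H := by
      have h2 : bad.card ≤ ∑ H ∈ S.powerset.filter (fun H => P H < X ^ (7 / 8 : ℝ)),
          ((near_finite q K c X V H).toFinset).card := card_biUnion_le
      have h3 : (bad.card : ℝ) ≤ ∑ H ∈ S.powerset.filter (fun H => P H < X ^ (7 / 8 : ℝ)),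
          (((near_finite q K c X V H).toFinset).card : ℝ) := by exact_mod_cast h2
      refine h3.trans (le_of_eq (sum_congr rfl fun H _ => ?_))
      rw [hP]
      simp only
      rw [Set.ncard_eq_toFinset_card _ (near_finite q K c X V H)]
    have hXp : 0 ≤ X ^ (7 / 8 : ℝ) := by positivity
    have h4 : ∑ H ∈ S.powerset.filter (fun H => P H < X ^ (7 / 8 : ℝ)), P H ≤
        (2 : ℝ) ^ K * X ^ (7 / 8 : ℝ) := by
      calc ∑ H ∈ S.powerset.filter (fun H => P H < X ^ (7 / 8 : ℝ)), P H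
          ≤ ∑ _H ∈ S.powerset.filter (fun H => P H < X ^ (7 / 8 : ℝ)), X ^ (7 / 8 : ℝ) :=
            sum_le_sum fun H hH => (mem_filter.1 hH).2.le
        _ = ((S.powerset.filter (fun H => P H < X ^ (7 / 8 : ℝ))).card : ℝ) * X ^ (7 / 8 : ℝ) := by
            rw [sum_const, nsmul_eq_mul]
        _ ≤ (2 : ℝ) ^ K * X ^ (7 / 8 : ℝ) := by
            apply mul_le_mul_of_nonneg_right _ hXp
            have h5 : (S.powerset.filter (fun H => P H < X ^ (7 / 8 : ℝ))).card ≤ 2 ^ K := by
              refine (card_filter_le _ _).trans ?_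
              rw [card_powerset, hSK]
            exact_mod_cast h5
    have h5 : (2 : ℝ) ^ K * X ^ (7 / 8 : ℝ) ≤ X ^ (7 / 8 : ℝ) * ((2 : ℝ) ^ K * ff X + 1) := by
      have h6 : (2 : ℝ) ^ K ≤ (2 : ℝ) ^ K * ff X + 1 := by
        have h7 : (0 : ℝ) ≤ 2 ^ K := by positivity
        have h8 : (2 : ℝ) ^ K * 1 ≤ (2 : ℝ) ^ K * ff X := mul_le_mul_of_nonneg_left hff1 h7
        linarith
      calc (2 : ℝ) ^ K * X ^ (7 / 8 : ℝ) = X ^ (7 / 8 : ℝ) * (2 : ℝ) ^ K := mul_comm _ _
        _ ≤ _ := mul_le_mul_of_nonneg_left h6 hXp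
    linarith
  -- the key step: a factor
  have key : ∀ lam : ℝ, 0 < lam → 64 * gam / kap * (B * (lam * Wt w S / K)) ≤ 2 ^ B →
      ∃ H ⊆ S, H.card = m ∧ X ^ (7 / 8 : ℝ) ≤ P H ∧ lam * Wt w H ≤ m := by
    intro lam hlam hcond
    have htot : ∑ i, ∑ j ∈ univ.filter (fun j => i ≠ j), lam * w (t i) (t j) = lam * Wt w S := by
      unfold Wt
      rw [mul_sum]
      conv_rhs => rw [← hSimg]
      rw [sum_image (fun x _ y _ e => htinj e)]
      refine sum_congr rfl fun i _ => ?_
      rw [mul_sum]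
      have h1 : (univ.image t).erase (t i) = (univ.filter (fun j => i ≠ j)).image t := by
        ext v
        simp only [mem_erase, mem_image, mem_univ, true_and, mem_filter]
        constructor
        · rintro ⟨h1, j, rfl⟩
          exact ⟨j, fun e => h1 (by rw [e]), rfl⟩
        · rintro ⟨j, h1, rfl⟩
          exact ⟨fun e => h1 (htinj e).symm, j, rfl⟩
      rw [h1, sum_image (fun x _ y _ e => htinj e)]
    obtain ⟨n, hn1, hn2, hn3, hn4, hn5, hn6⟩ := hX1 X hXX1 t htinj
      (fun j => by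
        obtain ⟨g1, g2, g3⟩ := hVp (t j) (hSV (htmem j))
        refine ⟨g1, ?_, g3⟩
        have g4 : ((yy X : ℕ) : ℝ) ≤ Real.log X / 1000 := Nat.floor_le (by positivity)
        have g5 : ((yy X : ℕ) : ℝ) < (t j : ℝ) := by linarith
        exact_mod_cast g5)
      (fun i j => lam * w (t i) (t j)) (lam * Wt w S / K)
      (fun i j => mul_nonneg hlam.le (hw _ _)) (by
        rw [htot, mul_div_cancel₀ _ hK0.ne']) hcond bad hbadcard
    have hqn : q ∣ n := dvd_of_primes q n hqsf fun p hp hpq => hn6 p hp (Nat.le_of_dvd hq0 hpq)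
    set J : Finset ℕ := S.filter (fun v => (n + v).Prime) with hJ
    have hJimg : J = (univ.filter (fun i => (n + t i).Prime)).image t := by
      ext v
      simp only [hJ, mem_filter, mem_image, mem_univ, true_and]
      constructor
      · rintro ⟨h1, h2⟩
        rw [← hSimg] at h1
        obtain ⟨i, _, rfl⟩ := mem_image.1 h1
        exact ⟨i, h2, rfl⟩
      · rintro ⟨i, h1, rfl⟩
        exact ⟨htmem i, h1⟩
    have hJcard : (univ.filter (fun i => (n + t i).Prime)).card = J.card := by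
      rw [hJimg, card_image_of_injective _ htinj]
    have hJsum : ∑ i ∈ univ.filter (fun i => (n + t i).Prime),
        ∑ j ∈ univ.filter (fun j => i ≠ j ∧ (n + t j).Prime), lam * w (t i) (t j) =
        ∑ x ∈ J, ∑ y ∈ J.filter (fun y => x ≠ y), lam * w x y := by
      rw [hJimg, sum_image (fun x _ y _ e => htinj e)]
      refine sum_congr rfl fun i _ => ?_
      have h1 : ((univ.filter (fun i => (n + t i).Prime)).image t).filter (fun y => t i ≠ y) =
          (univ.filter (fun j => i ≠ j ∧ (n + t j).Prime)).image t := by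
        ext v
        simp only [mem_filter, mem_image, mem_univ, true_and]
        constructor
        · rintro ⟨⟨j, h1, rfl⟩, h2⟩
          exact ⟨j, ⟨fun e => h2 (by rw [e]), h1⟩, rfl⟩
        · rintro ⟨j, ⟨h1, h2⟩, rfl⟩
          exact ⟨⟨j, h2, rfl⟩, fun e => h1 (htinj e)⟩
      rw [h1, sum_image (fun x _ y _ e => htinj e)]
    have hyB : (m : ℝ) ≤ kap * B / (128 * gam) := by
      rw [le_div_iff₀ (by positivity)]
      have h1 : DT * kap = 128 * gam := by unfold DT; field_simp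
      calc (m : ℝ) * (128 * gam) = kap * (DT * m) := by rw [← h1]; ring
        _ ≤ kap * B := mul_le_mul_of_nonneg_left hB1 hkap.le
    obtain ⟨H, hHJ, hHm, hHblk, hHw⟩ := block_weight J m hm (fun x y => lam * w x y)
      (fun x y => mul_nonneg hlam.le (hw _ _)) (by
        rw [hJcard, hJsum] at hn4
        linarith)
    have hHS : H ⊆ S := hHJ.trans (filter_subset _ _)
    have hnear : Near q K c X V H n := by
      refine ⟨hn1, hn2, hqn, fun h hh => (mem_filter.1 (hHJ hh)).2, ?_, S, hSV, hSK.le, ?_⟩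
      · rintro y hy1 ⟨h, hh, hyh⟩ hyp
        apply hHblk y _ hy1 ⟨h, hh, hyh⟩
        have h3 : (y : ℝ) ≤ c * ff X := by
          have h4 := (hVp h (hSV (hHS hh))).2.2
          have h5 : (y : ℝ) ≤ h := by exact_mod_cast hyh
          linarith
        obtain ⟨j, hj⟩ := hn5 y h3 hyp
        rw [hJ, mem_filter]
        exact ⟨by rw [hj]; exact htmem j, hyp⟩
      · intro y hy hyp
        obtain ⟨j, hj⟩ := hn5 y hy hyp
        rw [hj]
        exact htmem j
    refine ⟨H, hHS, hHm, ?_, ?_⟩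
    · by_contra hcon
      push Not at hcon
      apply hn3
      rw [hbad, mem_biUnion]
      refine ⟨H, mem_filter.2 ⟨mem_powerset.2 hHS, hcon⟩, ?_⟩
      rw [Set.Finite.mem_toFinset]
      exact hnear
    · refine le_trans (le_of_eq ?_) hHw
      unfold Wt
      rw [mul_sum]
      refine sum_congr rfl fun u _ => ?_
      rw [mul_sum]
  have hN2 : (K : ℝ) ≤ V.card := by exact_mod_cast hKV
  have hNpos : (0 : ℝ) < V.card := by linarith
  have hWS0 := Wt_nonneg w hw S
  have hWV0 := Wt_nonneg w hw V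
  have hSw2 : Wt w S / K ^ 2 ≤ Wt w V / V.card ^ 2 := by
    rw [div_le_div_iff₀ (by positivity) (by positivity)]
    have h1 : 0 < (V.card : ℝ) - 1 := by linarith
    have h2 : (V.card : ℝ) * ((K : ℝ) - 1) ≤ K * ((V.card : ℝ) - 1) := by linarith
    have h3 : (Wt w S * (V.card : ℝ) ^ 2) * ((V.card : ℝ) - 1) ≤
        (Wt w V * (K : ℝ) ^ 2) * ((V.card : ℝ) - 1) := by
      calc (Wt w S * (V.card : ℝ) ^ 2) * ((V.card : ℝ) - 1)
          = (Wt w S * ((V.card : ℝ) * ((V.card : ℝ) - 1))) * V.card := by ring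
        _ ≤ (Wt w V * ((K : ℝ) * ((K : ℝ) - 1))) * V.card :=
            mul_le_mul_of_nonneg_right hSw hNpos.le
        _ = (Wt w V * K) * ((V.card : ℝ) * ((K : ℝ) - 1)) := by ring
        _ ≤ (Wt w V * K) * (K * ((V.card : ℝ) - 1)) := mul_le_mul_of_nonneg_left h2 (by positivity)
        _ = _ := by ring
    exact le_of_mul_le_mul_right h3 h1
  rcases hWS0.eq_or_lt with h0 | h0
  · obtain ⟨H, hHS, hHm, hHP, hHw⟩ := key 1 one_pos (by
      rw [← h0]
      simp only [mul_zero, zero_div]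
      positivity)
    refine ⟨H, hHS.trans hSV, hHm, hHP, ?_⟩
    have h1 : Wt w H ≤ Wt w S := by
      unfold Wt
      refine le_trans (sum_le_sum fun u _ => sum_le_sum_of_subset_of_nonneg
        (erase_subset_erase u hHS) (fun v _ _ => hw u v)) ?_
      exact sum_le_sum_of_subset_of_nonneg hHS (fun u _ _ => sum_nonneg fun v _ => hw u v)
    rw [← h0] at h1
    exact h1.trans (by positivity)
  · obtain ⟨H, hHS, hHm, hHP, hHw⟩ := key (2 * K ^ 2 / (DT * B * Wt w S)) (by positivity) (by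
      have h1 : 64 * gam / kap = DT / 2 := by unfold DT; ring
      have h2 : (2 : ℝ) ^ B = K := by rw [hK]; push_cast; rfl
      rw [h1, h2]
      apply le_of_eq
      field_simp)
    refine ⟨H, hHS.trans hSV, hHm, hHP, ?_⟩
    have h1 : Wt w H ≤ m * (DT * B * Wt w S) / (2 * K ^ 2) := by
      rw [le_div_iff₀ (by positivity)]
      rw [div_mul_eq_mul_div, div_le_iff₀ (by positivity)] at hHw
      linarith
    calc Wt w H ≤ m * (DT * B * Wt w S) / (2 * K ^ 2) := h1
      _ = m * DT * B / 2 * (Wt w S / K ^ 2) := by field_simp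
      _ ≤ m * DT * B / 2 * (Wt w V / V.card ^ 2) := mul_le_mul_of_nonneg_left hSw2 (by positivity)
      _ ≤ m * DT * (2 * DT * m) / 2 * (Wt w V / V.card ^ 2) := by
          apply mul_le_mul_of_nonneg_right _ (by positivity)
          apply div_le_div_of_nonneg_right _ (by norm_num)
          exact mul_le_mul_of_nonneg_left hB2 (by positivity)
      _ = DT ^ 2 * m ^ 2 / V.card ^ 2 * Wt w V := by field_simp

end Pool.Agent.Helper274_RT
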