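import Mathlib
import Pool.Agent.Helper274_RT.PatT

/-! Spread distributions on the patterns realised in the record windows. -/

set_option autoImplicit false

namespace Pool.Agent.Helper274_RT

open Finset Filter
open Pool.Agent.H256R2.SC (ff)

/-- a spread probability distribution on the patterns with `m` elements that are realised in the record
windows -/
theorem dist_T : ∃ C : ℝ, 1 < C ∧ ∀ m : ℕ, 1 ≤ m → ∃ K : ℕ, (K : ℝ) ≤ C ^ m ∧ ∃ c : ℝ, 0 < c ∧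
    ∀ q : ℕ, Squarefree q → ∃ X₀ : ℝ, ∀ X : ℝ, X₀ ≤ X → ∀ V : Finset ℕ, K ≤ V.card →
    (∀ v ∈ V, v.Prime ∧ Real.log X ≤ v ∧ (v : ℝ) ≤ c * ff X) →
    ∃ μ : Finset ℕ → ℝ, (∀ H, 0 ≤ μ H) ∧
      (∀ H, μ H ≠ 0 → H ⊆ V ∧ H.card = m ∧
        X ^ (7 / 8 : ℝ) ≤ ({n : ℕ | Near q K c X V H n}.ncard : ℝ)) ∧
      ∑ H ∈ V.powerset, μ H = 1 ∧
      ∀ u ∈ V, ∀ v ∈ V, u ≠ v → ∑ H ∈ V.powerset.filter (fun H => u ∈ H ∧ v ∈ H), μ H ≤
        C * m ^ 2 / V.card ^ 2 := by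
  classical
  have hD := DT_ge
  obtain ⟨L, hL⟩ : ∃ L : ℕ, L = ⌈2 * DT⌉₊ := ⟨_, rfl⟩
  have hL1 : 2 * DT ≤ L := by rw [hL]; exact Nat.le_ceil _
  refine ⟨DT ^ 2 + 2 ^ L, ?_, fun m hm => ?_⟩
  · have : (0 : ℝ) < 2 ^ L := by positivity
    nlinarith
  obtain ⟨B, hmB, hB2, c, hc, hmain⟩ := pat_T m hm
  have hm0 : (0 : ℝ) ≤ m := Nat.cast_nonneg m
  refine ⟨2 ^ B, ?_, c, hc, fun q hq => ?_⟩
  · have h1 : (B : ℝ) ≤ (L * m : ℕ) := by
      push_cast
      exact hB2.trans (mul_le_mul_of_nonneg_right hL1 hm0)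
    have h2 : B ≤ L * m := by exact_mod_cast h1
    have h3 : (2 : ℝ) ^ B ≤ 2 ^ (L * m) := pow_le_pow_right₀ (by norm_num) h2
    push_cast
    calc (2 : ℝ) ^ B ≤ 2 ^ (L * m) := h3
      _ = (2 ^ L) ^ m := pow_mul _ _ _
      _ ≤ (DT ^ 2 + 2 ^ L) ^ m := by
        apply pow_le_pow_left₀ (by positivity)
        have : 0 ≤ DT ^ 2 := sq_nonneg _
        linarith
  · obtain ⟨X₀, hX₀⟩ := Filter.eventually_atTop.1 (hmain q hq)
    refine ⟨X₀, fun X hX V hV hVp => ?_⟩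
    have h := hX₀ X hX V hV hVp
    set P : Finset (Finset ℕ) := V.powerset.filter (fun H => H.card = m ∧
      X ^ (7 / 8 : ℝ) ≤ ({n : ℕ | Near q (2 ^ B) c X V H n}.ncard : ℝ)) with hPdef
    have hPV : ∀ H ∈ P, H ⊆ V := fun H hH => mem_powerset.1 (mem_filter.1 hH).1
    obtain ⟨μ, h1, h2, h3, h4⟩ := duality V P hPV ((DT ^ 2 + 2 ^ L) * m ^ 2 / V.card ^ 2) (by
      intro w hw
      obtain ⟨H, hHV, hHm, hHR, hHw⟩ := h w hw
      refine ⟨H, mem_filter.2 ⟨mem_powerset.2 hHV, hHm, hHR⟩, ?_⟩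
      have h5 : Wt w H ≤ (DT ^ 2 + 2 ^ L) * m ^ 2 / V.card ^ 2 * Wt w V := by
        refine hHw.trans ?_
        apply mul_le_mul_of_nonneg_right _ (Wt_nonneg w hw V)
        apply div_le_div_of_nonneg_right _ (by positivity)
        apply mul_le_mul_of_nonneg_right _ (by positivity)
        have : (0 : ℝ) ≤ 2 ^ L := by positivity
        linarith
      exact h5)
    have hsub : P ⊆ V.powerset := filter_subset _ _
    refine ⟨μ, h1, ?_, ?_, ?_⟩
    · intro H hH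
      obtain ⟨g1, g2, g3⟩ := mem_filter.1 (h2 H hH)
      exact ⟨mem_powerset.1 g1, g2, g3⟩
    · rw [← h3]
      symm
      apply sum_subset hsub
      intro H _ hHP
      by_contra hcon
      exact hHP (h2 H hcon)
    · intro u hu v hv huv
      refine le_trans (le_of_eq ?_) (h4 u hu v hv huv)
      symm
      apply sum_subset (filter_subset_filter _ hsub)
      intro H hH hHP
      by_contra hcon
      exact hHP (mem_filter.2 ⟨h2 H hcon, (mem_filter.1 hH).2⟩)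

end Pool.Agent.Helper274_RT
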